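import Pool.Agent.Helper19.SPB.AB3c

/-!
# Project SPH (MP_2ec7a7_al), type `E_7`: the Artin group of type `B_3`, part 4: the automorphisms
which fix `δ` and the lengths are inner
-/

namespace Pool.Agent.Helper19.SPB

open Pool.Agent.Helper38.BN
open Pool.Agent.Helper7.AG (SL mA mB mU mS tr mA_mB mU_mA mB_mU mA_braid ker_B3)

/-- the permutation of the three strands -/
def q3 : HB 2 →* Equiv.Perm (Fin 3) := liftH (swF_relA 0).toRelB

lemma q3_a {j : ℕ} (hj : j < 2) : q3 (aH j) = swF 0 j := liftH_a _ hj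

lemma piH_q3 (x : HB 2) : piH 2 x = extF 0 (q3 x) := by
  have h : piH 2 = (extF 0).comp q3 := by
    apply homH_ext
    · intro j hj
      rw [MonoidHom.comp_apply, q3_a hj, extF_sw hj]
      exact liftH_a _ hj
    · have e : q3 dH = 1 := liftH_d _
      rw [MonoidHom.comp_apply, e, map_one]
      exact liftH_d _
  rw [h]
  rfl

/-- the sign -/
def sg : HB 2 →* ℤˣ := (zpowersHom ℤˣ (-1)).comp (ex 1 0)

lemma sign_q3 (x : HB 2) : Equiv.Perm.sign (q3 x) = sg x := by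
  have h : Equiv.Perm.sign.comp q3 = sg := by
    apply homH_ext
    · intro j hj
      rw [MonoidHom.comp_apply, q3_a hj]
      unfold sg swF
      rw [MonoidHom.comp_apply, ex_a 1 0 hj, dif_pos hj]
      rw [Equiv.Perm.sign_swap (by simp)]
      simp
    · rw [MonoidHom.comp_apply]
      unfold sg
      rw [MonoidHom.comp_apply, ex_d]
      have e : q3 dH = 1 := liftH_d _
      rw [e, map_one]
      simp
  exact DFunLike.congr_fun h x

lemma odd_conj : ∀ s : Equiv.Perm (Fin 3), Equiv.Perm.sign s = -1 → ∃ j : Fin 3,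
    s = (Equiv.swap (0 : Fin 3) 1 * Equiv.swap (1 : Fin 3) 2) ^ (j : ℕ) * Equiv.swap (0 : Fin 3) 1 *
      ((Equiv.swap (0 : Fin 3) 1 * Equiv.swap (1 : Fin 3) 2) ^ (j : ℕ))⁻¹ := by
  decide

lemma q3_a0 : q3 (aH 0) = Equiv.swap (0 : Fin 3) 1 := by
  rw [q3_a (by omega)]
  rfl

lemma q3_del : q3 del = Equiv.swap (0 : Fin 3) 1 * Equiv.swap (1 : Fin 3) 2 := by
  unfold del
  have e : q3 dH = 1 := liftH_d _
  rw [map_mul, map_mul, e, one_mul, q3_a (by omega), q3_a (by omega)]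
  rfl

lemma conj_apply' {G : Type*} [Group G] (s x : G) : MulAut.conj s x = s * x * s⁻¹ := rfl

/-- **the automorphisms of the Artin group of type `B_3` which fix `δ` and the exponents** -/
theorem aut_B3 (φ : MulAut (HB 2)) (hδ : φ del = del) (hex : ∀ x, ex 1 0 (φ x) = ex 1 0 x) :
    ∃ s : HB 2, ∀ x, φ x = s * x * s⁻¹ := by
  have hs : Equiv.Perm.sign (q3 (φ (aH 0))) = -1 := by
    rw [sign_q3]
    unfold sg
    rw [MonoidHom.comp_apply, hex, ex_a 1 0 (by omega)]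
    simp
  obtain ⟨j, hj⟩ := odd_conj _ hs
  rw [← q3_del, ← q3_a0, ← map_pow, ← map_inv, ← map_mul, ← map_mul] at hj
  have hq : ∀ x, q3 (φ x) = q3 (del ^ (j : ℕ) * x * (del ^ (j : ℕ))⁻¹) := by
    intro x
    have h : q3.comp φ.toMonoidHom = q3.comp (MulAut.conj (del ^ (j : ℕ))).toMonoidHom := by
      apply ext2
      · change q3 (φ del) = q3 (del ^ (j : ℕ) * del * (del ^ (j : ℕ))⁻¹)
        have e : del ^ (j : ℕ) * del * (del ^ (j : ℕ))⁻¹ = del := by group
        rw [hδ, e]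
      · exact hj
    exact DFunLike.congr_fun h x
  obtain ⟨ψ, hψ⟩ : ∃ ψ : MulAut (HB 2), ψ = MulAut.conj ((del ^ (j : ℕ))⁻¹) * φ := ⟨_, rfl⟩
  have hψ' : ∀ x, ψ x = (del ^ (j : ℕ))⁻¹ * φ x * ((del ^ (j : ℕ))⁻¹)⁻¹ := by
    intro x
    rw [hψ]
    rfl
  have c1 : ψ del = del := by
    rw [hψ', hδ, inv_inv, mul_assoc, ← pow_succ', pow_succ, inv_mul_cancel_left]
  have c2 : ∀ x, ex 1 0 (ψ x) = ex 1 0 x := by
    intro x
    rw [hψ', map_mul, map_mul, map_inv (ex 1 0) ((del ^ (j : ℕ))⁻¹), hex]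
    exact mul_inv_cancel_comm _ _
  have c3 : ψ.symm del = del := by
    rw [MulEquiv.symm_apply_eq]
    exact c1.symm
  have c4 : ∀ x, ex 1 0 (ψ.symm x) = ex 1 0 x := by
    intro x
    rw [← c2 (ψ.symm x), MulEquiv.apply_symm_apply]
  have c5 : ∀ x, piH 2 (ψ x) = piH 2 x := by
    intro x
    have e : q3 (ψ x) = q3 x := by
      rw [hψ', map_mul, map_mul, hq, ← map_mul, ← map_mul]
      congr 1
      group
    rw [piH_q3, piH_q3, e]
  have c6 : ψ (zeH 2) = zeH 2 := by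
    rw [zeH_del, map_pow, c1]
  obtain ⟨s, l, h⟩ := Helper54.BN.aut_of_MF le_rfl ψ c5 c6 (MF_phi ψ c1 c2) (MF_phi ψ.symm c3 c4)
  have hTa : ∀ l : ℤ, Tr 2 l (aH 0) = aH 0 * zeH 2 ^ l := fun l => liftH_a _ (by omega)
  have hl : l = 0 := by
    have h1 := c2 (aH 0)
    rw [h, map_mul, map_mul, map_inv, mul_inv_cancel_comm, hTa, map_mul, map_zpow, ex_ze,
      ex_a 1 0 (by omega), ← ofAdd_zsmul, ← ofAdd_add] at h1
    have h2 := Multiplicative.ofAdd.injective h1
    simp at h2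
    exact h2
  subst hl
  have hT : ∀ x, Tr 2 0 x = x := by
    intro x
    have h1 : Tr 2 0 = MonoidHom.id (HB 2) := by
      apply homH_ext
      · intro i hi
        have e : Tr 2 0 (aH i) = aH i * zeH 2 ^ (0 : ℤ) := liftH_a _ hi
        rw [e, zpow_zero, mul_one, MonoidHom.id_apply]
      · have e : Tr 2 0 dH = dH * zeH 2 ^ (-((2 : ℕ) : ℤ) * 0) := liftH_d _
        rw [e, mul_zero, zpow_zero, mul_one, MonoidHom.id_apply]
    rw [h1, MonoidHom.id_apply]
  refine ⟨del ^ (j : ℕ) * s, fun x => ?_⟩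
  have h1 := hψ' x
  rw [h, hT] at h1
  have h2 : φ x = del ^ (j : ℕ) * (s * x * s⁻¹) * (del ^ (j : ℕ))⁻¹ := by
    rw [h1]
    group
  rw [h2]
  group

/-- a homomorphism to `ℤ` is determined by two values -/
lemma hom_Z (g : HB 2 →* Multiplicative ℤ) :
    g = ex (g (aH 0)).toAdd (g dH).toAdd := by
  apply ext2
  · have e : g (aH 1) = g (aH 0) := by
      rw [a1_eq, map_mul, map_mul, map_inv]
      exact mul_inv_cancel_comm _ _
    rw [ex_del]
    unfold del
    rw [map_mul, map_mul, e]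
    apply Multiplicative.toAdd.injective
    simp
    ring
  · rw [ex_a _ _ (by omega)]
    rfl

lemma ex_lin (p q : ℤ) (x : HB 2) : (ex p q x).toAdd = p * (ex 1 0 x).toAdd + q * (ex 0 1 x).toAdd := by
  have h : ex p q = (zpowersHom (Multiplicative ℤ) (Multiplicative.ofAdd p)).comp (ex 1 0) *
      (zpowersHom (Multiplicative ℤ) (Multiplicative.ofAdd q)).comp (ex 0 1) := by
    apply homH_ext
    · intro i hi
      rw [MonoidHom.mul_apply, MonoidHom.comp_apply, MonoidHom.comp_apply, ex_a _ _ hi,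
        ex_a _ _ hi, ex_a _ _ hi]
      simp
    · rw [MonoidHom.mul_apply, MonoidHom.comp_apply, MonoidHom.comp_apply, ex_d, ex_d, ex_d]
      simp
  rw [h]
  simp [mul_comm]

/-- **the automorphisms of the Artin group of type `B_3` which fix `δ` and the length with
`a_0, a_1 ↦ 2`, `d ↦ 3` are inner** -/
theorem aut_B3_len (φ : MulAut (HB 2)) (hδ : φ del = del) (hlen : ∀ x, ex 2 3 (φ x) = ex 2 3 x) :
    ∃ s : HB 2, ∀ x, φ x = s * x * s⁻¹ := by
  -- the matrix of an automorphism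
  have key : ∀ φ : MulAut (HB 2), φ del = del → (∀ x, ex 2 3 (φ x) = ex 2 3 x) → ∃ r : ℤ,
      ∀ x, (ex 1 0 (φ x)).toAdd = (1 - 3 * r) * (ex 1 0 x).toAdd + 6 * r * (ex 0 1 x).toAdd ∧
        (ex 0 1 (φ x)).toAdd = 2 * r * (ex 1 0 x).toAdd + (1 - 4 * r) * (ex 0 1 x).toAdd := by
    intro φ hδ hlen
    have h1 : ∀ (p q : ℤ) (x : HB 2), (ex p q (φ x)).toAdd =
        (ex p q (φ (aH 0))).toAdd * (ex 1 0 x).toAdd + (ex p q (φ dH)).toAdd * (ex 0 1 x).toAdd := by
      intro p q x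
      have h2 := DFunLike.congr_fun (hom_Z ((ex p q).comp φ.toMonoidHom)) x
      have h3 : ex p q (φ x) = ex (ex p q (φ (aH 0))).toAdd (ex p q (φ dH)).toAdd x := h2
      rw [h3, ex_lin]
    have e1 := congrArg Multiplicative.toAdd (hlen (aH 0))
    have e2 := congrArg Multiplicative.toAdd (hlen dH)
    rw [ex_lin, ex_a _ _ (by omega), toAdd_ofAdd] at e1
    rw [ex_lin, ex_d, toAdd_ofAdd] at e2
    have e3 := h1 1 0 del
    have e4 := h1 0 1 del
    rw [hδ, ex_del, ex_del, toAdd_ofAdd, toAdd_ofAdd] at e3 e4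
    have hp := h1 1 0
    have hq := h1 0 1
    generalize (ex 1 0 (φ (aH 0))).toAdd = p at *
    generalize (ex 0 1 (φ (aH 0))).toAdd = r at *
    generalize (ex 1 0 (φ dH)).toAdd = q at *
    generalize (ex 0 1 (φ dH)).toAdd = t at *
    obtain ⟨r', rfl⟩ : ∃ r', r = 2 * r' := ⟨r / 2, by omega⟩
    obtain rfl : p = 1 - 3 * r' := by omega
    obtain rfl : q = 6 * r' := by omega
    obtain rfl : t = 1 - 4 * r' := by omega
    exact ⟨r', fun x => ⟨hp x, hq x⟩⟩
  obtain ⟨r, hr⟩ := key φ hδ hlen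
  obtain ⟨r', hr'⟩ := key φ.symm (by rw [MulEquiv.symm_apply_eq]; exact hδ.symm)
    (fun x => by rw [← hlen (φ.symm x), MulEquiv.apply_symm_apply])
  have h0 : r = 0 := by
    have h1 := (hr (φ.symm (aH 0))).1
    rw [MulEquiv.apply_symm_apply, (hr' (aH 0)).1, (hr' (aH 0)).2, ex_a _ _ (by omega),
      ex_a _ _ (by omega), toAdd_ofAdd, toAdd_ofAdd] at h1
    have h1' : 3 * (7 * (r * r') - (r + r')) = 0 := by linear_combination -h1
    have h1'' : 7 * (r * r') - (r + r') = 0 := by linarith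
    have h2 : (7 * r - 1) * (7 * r' - 1) = 1 := by linear_combination 7 * h1''
    rcases Int.eq_one_or_neg_one_of_mul_eq_one' h2 with ⟨h3, h4⟩ | ⟨h3, h4⟩ <;> omega
  subst h0
  apply aut_B3 φ hδ
  intro x
  apply Multiplicative.toAdd.injective
  rw [(hr x).1]
  ring

end Pool.Agent.Helper19.SPB
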