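import Pool.Agent.Helper54.BN.E6
import Pool.Agent.Helper38.BN.PiF
import Pool.Agent.Helper7.AG.Sl5

/-!
# Project SPH (MP_2ec7a7_al), type `E_7`: the Artin group of type `B_3`, part 1

`HB 2` is the Artin group of type `B_3` with the generators `dH`, `aH 0`, `aH 1`;
`del = dH * aH 0 * aH 1`.  `f0 : HB 2 → SL(2, ℤ)` sends `dH` to `1`.
-/

namespace Pool.Agent.Helper19.SPB

open Pool.Agent.Helper38.BN
open Pool.Agent.Helper7.AG (SL mA mB mU mS tr mA_mB mU_mA mB_mU mA_braid ker_B3)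

/-- the element `δ` -/
def del : HB 2 := dH * aH 0 * aH 1

lemma a_d : (aH 1 : HB 2) * dH = dH * aH 1 := (relH 2).dcomm 1 (by omega) (by omega)

lemma a_a : (aH 0 : HB 2) * aH 1 * aH 0 = aH 1 * aH 0 * aH 1 := (relH 2).braid 0 (by omega)

lemma del_a0 : del * aH 0 = aH 1 * del := by
  unfold del
  calc dH * aH 0 * aH 1 * aH 0 = dH * (aH 0 * aH 1 * aH 0) := by simp only [mul_assoc]
    _ = (dH * aH 1) * aH 0 * aH 1 := by rw [a_a]; simp only [mul_assoc]
    _ = _ := by rw [← a_d]; simp only [mul_assoc]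

lemma a1_eq : (aH 1 : HB 2) = del * aH 0 * del⁻¹ := by
  rw [del_a0, mul_inv_cancel_right]

lemma d_eq : (dH : HB 2) = del * (aH 1)⁻¹ * (aH 0)⁻¹ := by
  unfold del
  group

lemma zeH_del : zeH 2 = del ^ 3 := by
  unfold zeH zeta rho del kap
  congr 1

lemma del_ze : del * zeH 2 = zeH 2 * del := zeH_comm del

/-- homomorphisms on `HB 2` are determined by the values at `del` and `a_0` -/
lemma ext2 {K : Type*} [Group K] {f g : HB 2 →* K} (h1 : f del = g del)
    (h2 : f (aH 0) = g (aH 0)) : f = g := by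
  have h3 : f (aH 1) = g (aH 1) := by
    rw [a1_eq, map_mul, map_mul, map_mul, map_mul, map_inv, map_inv, h1, h2]
  apply homH_ext
  · intro j hj
    interval_cases j
    · exact h2
    · exact h3
  · rw [d_eq, map_mul, map_mul, map_mul, map_mul, map_inv, map_inv, map_inv, map_inv, h1, h2, h3]

lemma f0_rel : RelB 2 (fun j => if j = 0 then mA else mB) (1 : SL) where
  comm i j h h' := by omega
  braid i h := by
    have e : i = 0 := by omega
    subst e
    simpa using mA_braid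
  dcomm i h h' := by simp
  four h := by simp

/-- the homomorphism to `SL(2, ℤ)` -/
def f0 : HB 2 →* SL := liftH f0_rel

@[simp] lemma f0_a0 : f0 (aH 0) = mA := by
  unfold f0
  rw [liftH_a _ (by omega)]
  simp

@[simp] lemma f0_a1 : f0 (aH 1) = mB := by
  unfold f0
  rw [liftH_a _ (by omega)]
  simp

@[simp] lemma f0_d : f0 dH = 1 := liftH_d _

@[simp] lemma f0_del : f0 del = mU := by
  unfold del
  rw [map_mul, map_mul, f0_d, f0_a0, f0_a1, one_mul, mA_mB]

lemma zH_z {i : ℕ} (hi : i ≤ 2) : zH 2 (zF i) = zz aH dH i := liftF_z _ hi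

/-- a homomorphism which kills `dH` kills `F` -/
lemma kill_zH {K : Type*} [Group K] {f : HB 2 →* K} (h : f dH = 1) (x : F 2) :
    f (zH 2 x) = 1 := by
  have h1 : f.comp (zH 2) = 1 := by
    apply homF_ext
    intro i hi
    rw [MonoidHom.comp_apply, zH_z hi, MonoidHom.one_apply]
    clear hi
    induction i with
    | zero => exact h
    | succ i ih =>
      change f ((aH i)⁻¹ * zz aH dH i * aH i) = 1
      rw [map_mul, map_mul, ih, mul_one, map_inv, inv_mul_cancel]
  exact DFunLike.congr_fun h1 x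

/-- the kernel of `f0` modulo `±1` is `F⟨ζ⟩` -/
theorem ker_f0 {x : HB 2} (h : f0 x = 1 ∨ f0 x = -1) :
    ∃ (z : F 2) (e : ℤ), x = zH 2 z * zeH 2 ^ e := by
  obtain ⟨z, b, hb, rfl⟩ := HB_decomp x
  have hset : (aH '' {j | j < 2} : Set (HB 2)) = {aH 0, aH 1} := by
    ext y
    constructor
    · rintro ⟨j, hj, rfl⟩
      have hj' : j < 2 := hj
      interval_cases j
      · exact Or.inl rfl
      · exact Or.inr rfl
    · rintro (rfl | rfl)
      · exact ⟨0, by simp, rfl⟩
      · exact ⟨1, by simp, rfl⟩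
  unfold BrH at hb
  rw [hset] at hb
  rw [map_mul, kill_zH f0_d, one_mul] at h
  obtain ⟨n, hn⟩ := ker_B3 a_a f0_a0 f0_a1 hb h
  have hO : ((aH 0 : HB 2) * aH 1) ^ 3 = zH 2 (wF 2)⁻¹ * zeH 2 := by
    rw [zeH_eq, map_inv, inv_mul_cancel_left]
    unfold Om kap
    congr 1
  have hc : Commute (zH 2 (wF 2)⁻¹) (zeH 2) := zeH_comm _
  refine ⟨z * ((wF 2)⁻¹) ^ n, n, ?_⟩
  rw [hn, hO, hc.mul_zpow, map_mul, map_zpow, mul_assoc]

end Pool.Agent.Helper19.SPB
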