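import Pool.Agent.Helper19.SPB.AB3a

/-!
# Project SPH (MP_2ec7a7_al), type `E_7`: the Artin group of type `B_3`, part 2: braid pairs in
`SL(2, ℤ)`
-/

namespace Pool.Agent.Helper19.SPB

open Pool.Agent.Helper38.BN
open Pool.Agent.Helper7.AG (SL mA mB mU mS tr mA_mB mU_mA mB_mU mA_braid ker_B3)

lemma mU_cube : mU * mU * mU = -1 := by
  ext i j
  fin_cases i <;> fin_cases j <;> simp [mU, Matrix.mul_apply]

/-- If `T` and `T' = U T U⁻¹` are a braid pair (`U` of order three modulo `±1`), then `T = T'`, or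
`T U` or `T U⁻¹` has the trace `0`.  Proof: `T T' T - T' T T' = tr(T U) tr(T U⁻¹) (T - T')`. -/
theorem tr_zero {T T' : SL} (h1 : mU * T = T' * mU) (h2 : T * T' * T = T' * T * T') :
    T = T' ∨ (T * mU) ^ 2 = -1 ∨ (T * mU⁻¹) ^ 2 = -1 := by
  have hT' : T' = mU * T * mU⁻¹ := by rw [h1, mul_inv_cancel_right]
  obtain ⟨M, hM⟩ := T
  obtain ⟨a, b, c, d, rfl⟩ : ∃ a b c d, M = !![a, b; c, d] :=
    ⟨M 0 0, M 0 1, M 1 0, M 1 1, by ext i j; fin_cases i <;> fin_cases j <;> rfl⟩
  have hdet : a * d - b * c = 1 := by simpa [Matrix.det_fin_two] using hM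
  have hT'' : (T' : Matrix (Fin 2) (Fin 2) ℤ) = !![c + d, -c; c - a + d - b, a - c] := by
    rw [hT']
    simp only [Matrix.SpecialLinearGroup.coe_mul, Matrix.SpecialLinearGroup.coe_inv, mU,
      Matrix.adjugate_fin_two_of]
    ext i j
    fin_cases i <;> fin_cases j <;> simp [Matrix.mul_apply, Fin.sum_univ_two] <;> ring
  have h3 := congrArg (fun X : SL => (X : Matrix (Fin 2) (Fin 2) ℤ)) h2
  simp only [Matrix.SpecialLinearGroup.coe_mul, hT''] at h3
  have e00 := congrFun (congrFun h3 0) 0
  have e01 := congrFun (congrFun h3 0) 1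
  have e10 := congrFun (congrFun h3 1) 0
  have e11 := congrFun (congrFun h3 1) 1
  simp [Matrix.mul_apply, Fin.sum_univ_two] at e00 e01 e10 e11
  by_cases hy : c + d - b = 0
  · right; left
    have hb : b = c + d := by omega
    subst hb
    rw [pow_two]
    ext i j
    fin_cases i <;> fin_cases j <;>
      simp [mU, Matrix.mul_apply, Fin.sum_univ_two] <;> nlinarith
  by_cases hy' : a + b - c = 0
  · right; right
    have hb : c = a + b := by omega
    subst hb
    rw [pow_two]
    ext i j
    fin_cases i <;> fin_cases j <;>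
      simp [mU, Matrix.mul_apply, Fin.sum_univ_two, Matrix.adjugate_fin_two_of] <;> nlinarith
  left
  have hne : (c + d - b) * (a + b - c) ≠ 0 := mul_ne_zero hy hy'
  have k00 : (c + d - b) * (a + b - c) * (a - (c + d)) = 0 := by linear_combination e00
  have k01 : (c + d - b) * (a + b - c) * (b - -c) = 0 := by linear_combination e01
  have k10 : (c + d - b) * (a + b - c) * (c - (c - a + d - b)) = 0 := by linear_combination e10
  have k11 : (c + d - b) * (a + b - c) * (d - (a - c)) = 0 := by linear_combination e11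
  have l00 := (mul_eq_zero.1 k00).resolve_left hne
  have l01 := (mul_eq_zero.1 k01).resolve_left hne
  have l10 := (mul_eq_zero.1 k10).resolve_left hne
  have l11 := (mul_eq_zero.1 k11).resolve_left hne
  apply Subtype.ext
  rw [hT'']
  ext i j
  fin_cases i <;> fin_cases j <;> simp <;> omega

end Pool.Agent.Helper19.SPB
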