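import Pool.Agent.Helper19.SPB.AB3b

/-!
# Project SPH (MP_2ec7a7_al), type `E_7`: the Artin group of type `B_3`, part 3: an automorphism
which fixes `δ` and the exponents maps `F` into `F⟨ζ⟩`
-/

namespace Pool.Agent.Helper19.SPB

open Pool.Agent.Helper38.BN
open Pool.Agent.Helper7.AG (SL mA mB mU mS tr mA_mB mU_mA mB_mU mA_braid ker_B3)

lemma ex_rel (p q : ℤ) :
    RelB 2 (fun _ => Multiplicative.ofAdd p) (Multiplicative.ofAdd q) where
  comm i j h h' := rfl
  braid i h := rfl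
  dcomm i h h' := mul_comm _ _
  four h := by
    simp only [← ofAdd_add]
    congr 1
    ring

/-- the exponent sums -/
def ex (p q : ℤ) : HB 2 →* Multiplicative ℤ := liftH (ex_rel p q)

lemma ex_a (p q : ℤ) {i : ℕ} (hi : i < 2) : ex p q (aH i) = Multiplicative.ofAdd p :=
  liftH_a _ hi

lemma ex_d (p q : ℤ) : ex p q dH = Multiplicative.ofAdd q := liftH_d _

lemma ex_del (p q : ℤ) : ex p q del = Multiplicative.ofAdd (q + 2 * p) := by
  unfold del
  rw [map_mul, map_mul, ex_d, ex_a p q (by omega), ex_a p q (by omega), ← ofAdd_add, ← ofAdd_add]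
  congr 1
  ring

lemma ex_ze (p q : ℤ) : ex p q (zeH 2) = Multiplicative.ofAdd (3 * q + 6 * p) := by
  rw [zeH_del, map_pow, ex_del, ← ofAdd_nsmul]
  congr 1
  simp
  ring

/-- the image of `f0 ∘ φ` is not commutative -/
lemma noncomm (φ : MulAut (HB 2)) (h : mU * f0 (φ (aH 0)) = f0 (φ (aH 0)) * mU)
    (hδ : φ del = del) : False := by
  let f : HB 2 →* SL := f0.comp φ.toMonoidHom
  have hf : ∀ x, f x = f0 (φ x) := fun _ => rfl
  have hfd : f del = mU := by rw [hf, hδ, f0_del]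
  have k : ∀ X : SL, X * mU = mU * X → X * f (aH 0) = f (aH 0) * X → ∀ x, X * f x = f x * X := by
    intro X h1 h2 x
    have h3 : (MulAut.conj X).toMonoidHom.comp f = f := by
      apply ext2
      · rw [MonoidHom.comp_apply, hfd]
        change X * mU * X⁻¹ = mU
        rw [h1, mul_inv_cancel_right]
      · rw [MonoidHom.comp_apply]
        change X * f (aH 0) * X⁻¹ = f (aH 0)
        rw [h2, mul_inv_cancel_right]
    have h4 : X * f x * X⁻¹ = f x := DFunLike.congr_fun h3 x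
    calc X * f x = X * f x * X⁻¹ * X := by group
      _ = f x * X := by rw [h4]
  have k1 : ∀ x, mU * f x = f x * mU := k mU rfl h
  have k2 : ∀ x, f (aH 0) * f x = f x * f (aH 0) := k _ h.symm rfl
  have k3 : ∀ x y, f y * f x = f x * f y := fun x y => k (f y) (k1 y).symm (k2 y).symm x
  have h5 := k3 (φ.symm (aH 0)) (φ.symm (aH 1))
  rw [hf, hf, MulEquiv.apply_symm_apply, MulEquiv.apply_symm_apply, f0_a0, f0_a1] at h5
  have h6 := congrArg (fun X : SL => (X : Matrix (Fin 2) (Fin 2) ℤ) 0 0) h5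
  simp [mA, mB, Matrix.mul_apply] at h6

/-- `φ d` is in `F⟨ζ⟩` -/
theorem f0_phi_d (φ : MulAut (HB 2)) (hδ : φ del = del) (hex : ∀ x, ex 1 0 (φ x) = ex 1 0 x) :
    f0 (φ dH) = 1 := by
  obtain ⟨T, hT⟩ : ∃ T, T = f0 (φ (aH 0)) := ⟨_, rfl⟩
  obtain ⟨T', hT'⟩ : ∃ T', T' = f0 (φ (aH 1)) := ⟨_, rfl⟩
  have h1 : mU * T = T' * mU := by
    have := congrArg (fun x => f0 (φ x)) del_a0
    simp only [map_mul, hδ, f0_del] at this
    rw [hT, hT']
    exact this
  have h2 : T * T' * T = T' * T * T' := by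
    have := congrArg (fun x => f0 (φ x)) a_a
    simp only [map_mul] at this
    rw [hT, hT']
    exact this
  rcases tr_zero h1 h2 with h3 | h3 | h3
  · exfalso
    rw [← h3, hT] at h1
    exact noncomm φ h1 hδ
  · have hd : f0 (φ dH) = mU * T'⁻¹ * T⁻¹ := by
      rw [d_eq]
      simp only [map_mul, map_inv, hδ, f0_del]
      rw [hT, hT']
    have e1 : T'⁻¹ = mU * T⁻¹ * mU⁻¹ := by
      have : T' = mU * T * mU⁻¹ := by rw [h1, mul_inv_cancel_right]
      rw [this]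
      group
    have e2 : T * mU * T = (-1) * mU⁻¹ := by
      rw [← h3, pow_two]
      group
    have e3 : T⁻¹ * mU⁻¹ * T⁻¹ = mU * (-1 : SL)⁻¹ := by
      calc T⁻¹ * mU⁻¹ * T⁻¹ = (T * mU * T)⁻¹ := by group
        _ = _ := by rw [e2, mul_inv_rev, inv_inv]
    rw [hd, e1]
    calc mU * (mU * T⁻¹ * mU⁻¹) * T⁻¹ = mU * mU * (T⁻¹ * mU⁻¹ * T⁻¹) := by group
      _ = (mU * mU * mU) * (-1 : SL)⁻¹ := by rw [e3]; group
      _ = 1 := by rw [mU_cube, mul_inv_cancel]
  · exfalso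
    have h4 : f0 (φ ((aH 0 * del⁻¹) ^ 2)) = -1 := by
      rw [map_pow, map_pow, map_mul, map_mul, map_inv, map_inv, hδ, f0_del, ← hT, h3]
    obtain ⟨z, e, hz⟩ := ker_f0 (Or.inr h4)
    have h5 := congrArg (ex 1 0) hz
    rw [hex, map_mul, kill_zH (ex_d 1 0), one_mul, map_zpow, ex_ze, map_pow, map_mul, map_inv,
      ex_a 1 0 (by omega), ex_del, ← ofAdd_zsmul, ← ofAdd_neg, ← ofAdd_add, ← ofAdd_nsmul] at h5
    have h6 := Multiplicative.ofAdd.injective h5
    simp at h6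
    omega

/-- `φ` maps `F` into `F⟨ζ⟩` -/
theorem MF_phi (φ : MulAut (HB 2)) (hδ : φ del = del) (hex : ∀ x, ex 1 0 (φ x) = ex 1 0 x) :
    Helper54.BN.MF 2 φ.toMonoidHom := by
  intro x
  have h1 : (f0.comp φ.toMonoidHom) (zH 2 x) = 1 :=
    kill_zH (f := f0.comp φ.toMonoidHom) (f0_phi_d φ hδ hex) x
  exact ker_f0 (Or.inl h1)

end Pool.Agent.Helper19.SPB
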